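import Mathlib
import Pool.Agent.TH861.SC.Cnt

set_option autoImplicit false

/-!
# Squarefree values of `m ^ g - n ^ 2`, `n` in a short interval of even numbers
-/

namespace Pool.Agent.TH861.CG

open Finset Pool.Agent.TH861.SC

theorem pow_dvd_or {m g : ℕ} (hm : m.Prime) {u v : ℤ} (h : ((m : ℤ)) ^ g ∣ u * v)
    (hn : ¬ ((m : ℤ) ∣ u ∧ (m : ℤ) ∣ v)) : (m : ℤ) ^ g ∣ u ∨ (m : ℤ) ^ g ∣ v := by
  have hp : Prime (m : ℤ) := Nat.prime_iff_prime_int.1 hm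
  by_cases hu : (m : ℤ) ∣ u
  · left
    have hv : ¬ (m : ℤ) ∣ v := fun hv => hn ⟨hu, hv⟩
    have hc : IsCoprime ((m : ℤ) ^ g) v := ((hp.coprime_iff_not_dvd).2 hv).pow_left
    exact hc.dvd_of_dvd_mul_right h
  · right
    have hc : IsCoprime ((m : ℤ) ^ g) u := ((hp.coprime_iff_not_dvd).2 hu).pow_left
    exact hc.dvd_of_dvd_mul_left h

/-- For a prime `m` the equation `m ^ g = n ^ 2 + k p ^ 2` has at most one solution with `p` prime,
`n` prime to `m` and `n ^ 2 > k p ^ 2`. -/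
theorem inj {m g n1 n2 k p1 p2 : ℕ} (hm : m.Prime) (hm2 : m ≠ 2) (hg : 1 ≤ g) (hk : 1 ≤ k)
    (h1 : m ^ g = n1 ^ 2 + k * p1 ^ 2) (h2 : m ^ g = n2 ^ 2 + k * p2 ^ 2) (hp1 : p1.Prime)
    (hp2 : p2.Prime) (hn1 : ¬ m ∣ n1) (hn2 : ¬ m ∣ n2) (hb1 : k * p1 ^ 2 < n1 ^ 2)
    (hb2 : k * p2 ^ 2 < n2 ^ 2) : n1 = n2 := by
  have z1 : (m : ℤ) ^ g = (n1 : ℤ) ^ 2 + k * (p1 : ℤ) ^ 2 := by exact_mod_cast h1
  have z2 : (m : ℤ) ^ g = (n2 : ℤ) ^ 2 + k * (p2 : ℤ) ^ 2 := by exact_mod_cast h2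
  have hM : (0 : ℤ) < (m : ℤ) ^ g := by
    have : (0 : ℤ) < m := by exact_mod_cast hm.pos
    positivity
  set M : ℤ := (m : ℤ) ^ g with hMdef
  set u : ℤ := (n1 : ℤ) * p2 - n2 * p1 with hu
  set v : ℤ := (n1 : ℤ) * p2 + n2 * p1 with hv
  have huv : u * v = M * ((p2 : ℤ) ^ 2 - (p1 : ℤ) ^ 2) := by
    rw [hu, hv]
    linear_combination -(p2 : ℤ) ^ 2 * z1 + (p1 : ℤ) ^ 2 * z2
  have hp1' : (0 : ℤ) < p1 := by exact_mod_cast hp1.pos
  have hp2' : (0 : ℤ) < p2 := by exact_mod_cast hp2.pos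
  have hk' : (1 : ℤ) ≤ k := by exact_mod_cast hk
  have hn1' : (0 : ℤ) < n1 := by
    have : n1 ≠ 0 := fun h => hn1 (by rw [h]; exact dvd_zero m)
    exact_mod_cast Nat.pos_of_ne_zero this
  have hn2' : (0 : ℤ) < n2 := by
    have : n2 ≠ 0 := fun h => hn2 (by rw [h]; exact dvd_zero m)
    exact_mod_cast Nat.pos_of_ne_zero this
  have hb1' : (k : ℤ) * (p1 : ℤ) ^ 2 < (n1 : ℤ) ^ 2 := by exact_mod_cast hb1
  have hb2' : (k : ℤ) * (p2 : ℤ) ^ 2 < (n2 : ℤ) ^ 2 := by exact_mod_cast hb2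
  -- not both
  have hboth : ¬ ((m : ℤ) ∣ u ∧ (m : ℤ) ∣ v) := by
    rintro ⟨ha, hb⟩
    have h3 : (m : ℤ) ∣ 2 * ((n1 : ℤ) * p2) := by
      have e : 2 * ((n1 : ℤ) * p2) = u + v := by rw [hu, hv]; ring
      rw [e]
      exact dvd_add ha hb
    have h4 : m ∣ 2 * (n1 * p2) := by exact_mod_cast h3
    rcases hm.dvd_mul.1 h4 with h5 | h5
    · exact hm2 ((Nat.prime_dvd_prime_iff_eq hm Nat.prime_two).1 h5)
    rcases hm.dvd_mul.1 h5 with h6 | h6
    · exact hn1 h6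
    · have h7 : m ∣ m ^ g := dvd_pow_self m (by omega)
      rw [h2] at h7
      have h8 : m ∣ k * p2 ^ 2 := (h6.trans (dvd_pow_self p2 (by norm_num))).mul_left k
      have h9 : m ∣ n2 ^ 2 := (Nat.dvd_add_left h8).1 h7
      exact hn2 (hm.dvd_of_dvd_pow h9)
  have hdv : M ∣ u ∨ M ∣ v := pow_dvd_or hm (by rw [← hMdef, huv]; exact dvd_mul_right _ _) hboth
  -- sizes
  have e1 : ((n1 : ℤ) * n2 + k * (p1 * p2)) ^ 2 + k * u ^ 2 = M ^ 2 := by
    have : M ^ 2 = ((n1 : ℤ) ^ 2 + k * (p1 : ℤ) ^ 2) * ((n2 : ℤ) ^ 2 + k * (p2 : ℤ) ^ 2) := by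
      rw [← z1, ← z2]; ring
    rw [this, hu]
    ring
  have e2 : ((n1 : ℤ) * n2 - k * (p1 * p2)) ^ 2 + k * v ^ 2 = M ^ 2 := by
    have : M ^ 2 = ((n1 : ℤ) ^ 2 + k * (p1 : ℤ) ^ 2) * ((n2 : ℤ) ^ 2 + k * (p2 : ℤ) ^ 2) := by
      rw [← z1, ← z2]; ring
    rw [this, hv]
    ring
  have hu2 : u ^ 2 < M ^ 2 := by
    have h3 : 0 < ((n1 : ℤ) * n2 + k * (p1 * p2)) ^ 2 := by positivity
    nlinarith [sq_nonneg u]
  have hv2 : v ^ 2 < M ^ 2 := by
    have h3 : (k : ℤ) * (p1 * p2) < n1 * n2 := by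
      have h4 : ((k : ℤ) * (p1 * p2)) ^ 2 < ((n1 : ℤ) * n2) ^ 2 := by
        calc ((k : ℤ) * (p1 * p2)) ^ 2 = (k * (p1 : ℤ) ^ 2) * (k * (p2 : ℤ) ^ 2) := by ring
          _ < (n1 : ℤ) ^ 2 * (n2 : ℤ) ^ 2 :=
            mul_lt_mul'' hb1' hb2' (by positivity) (by positivity)
          _ = _ := by ring
      exact lt_of_pow_lt_pow_left₀ 2 (by positivity) h4
    have h4 : 0 < ((n1 : ℤ) * n2 - k * (p1 * p2)) ^ 2 := by
      have : 0 < (n1 : ℤ) * n2 - k * (p1 * p2) := by linarith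
      positivity
    nlinarith [sq_nonneg v]
  have hvpos : 0 < v := by rw [hv]; positivity
  have hvM : ¬ M ∣ v := by
    intro hd
    have h3 := Int.le_of_dvd hvpos hd
    nlinarith
  have huM : M ∣ u := hdv.resolve_right hvM
  have hu0 : u = 0 := by
    by_contra hne
    have h3 : |M| ≤ |u| := Int.le_of_dvd (abs_pos.2 hne) ((abs_dvd_abs M u).2 huM)
    have h4 := sq_le_sq.2 h3
    linarith
  rw [hu0, zero_mul] at huv
  have h5 : (p2 : ℤ) ^ 2 - (p1 : ℤ) ^ 2 = 0 := by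
    rcases mul_eq_zero.1 huv.symm with h6 | h6
    · exact absurd h6 hM.ne'
    · exact h6
  have h6 : (p1 : ℤ) = p2 := by
    have h7 : (p1 : ℤ) ^ 2 = (p2 : ℤ) ^ 2 := by linarith
    exact (pow_left_inj₀ hp1'.le hp2'.le (by norm_num)).1 h7
  have h7 : (n1 : ℤ) = n2 := by
    rw [hu, ← h6] at hu0
    have h8 : ((n1 : ℤ) - n2) * p1 = 0 := by linear_combination hu0
    rcases mul_eq_zero.1 h8 with h9 | h9
    · linarith
    · exact absurd h9 hp1'.ne'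
  exact_mod_cast h7

/-- small primes -/
theorem row_prime {A N L p : ℕ} (hp : p.Prime) (hp2 : p ≠ 2) (hpA : ¬ p ∣ A)
    (hpos : ∀ i < L, (2 * (N + i)) ^ 2 ≤ A) :
    (((range L).filter fun i => p ^ 2 ∣ A - (2 * (N + i)) ^ 2).card : ℝ) ≤
      2 * ((L : ℝ) / ((p : ℝ) ^ 2) + 1) := by
  classical
  set F := (range L).filter fun i => p ^ 2 ∣ A - (2 * (N + i)) ^ 2 with hF
  have hpos' : (0 : ℝ) ≤ (L : ℝ) / ((p : ℝ) ^ 2) := by positivity
  rcases F.eq_empty_or_nonempty with h0 | ⟨j, hj⟩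
  · rw [h0]; simp; linarith
  have hmem : ∀ i ∈ F, i < L ∧ ((p : ℤ) ^ 2 ∣ (A : ℤ) - (2 * ((N : ℤ) + i)) ^ 2) := by
    intro i hi
    rw [hF, mem_filter, mem_range] at hi
    refine ⟨hi.1, ?_⟩
    have h1 : ((p ^ 2 : ℕ) : ℤ) ∣ ((A - (2 * (N + i)) ^ 2 : ℕ) : ℤ) := by exact_mod_cast hi.2
    rw [Nat.cast_sub (hpos i hi.1)] at h1
    push_cast at h1
    exact h1
  have hpp : Prime (p : ℤ) := Nat.prime_iff_prime_int.1 hp
  have hnd : ∀ i ∈ F, ¬ (p : ℤ) ∣ (N : ℤ) + i := by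
    intro i hi hd
    have h1 := (hmem i hi).2
    have h2 : (p : ℤ) ∣ (A : ℤ) - (2 * ((N : ℤ) + i)) ^ 2 := dvd_trans (dvd_pow_self _ (by norm_num)) h1
    have h3 : (p : ℤ) ∣ (2 * ((N : ℤ) + i)) ^ 2 :=
      dvd_trans (hd.mul_left 2) (dvd_pow_self _ (by norm_num))
    have h4 : (p : ℤ) ∣ (A : ℤ) := by
      have := dvd_add h2 h3
      simpa using this
    exact hpA (by exact_mod_cast h4)
  have hcase : ∀ i ∈ F, (p : ℤ) ^ 2 ∣ (i : ℤ) - j ∨ (p : ℤ) ^ 2 ∣ (i : ℤ) + j + 2 * N := by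
    intro i hi
    have h1 := dvd_sub (hmem j hj).2 (hmem i hi).2
    have h2 : (p : ℤ) ^ 2 ∣ 4 * (((i : ℤ) - j) * ((i : ℤ) + j + 2 * N)) := by
      have e : 4 * (((i : ℤ) - j) * ((i : ℤ) + j + 2 * N)) =
          (A : ℤ) - (2 * ((N : ℤ) + j)) ^ 2 - ((A : ℤ) - (2 * ((N : ℤ) + i)) ^ 2) := by ring
      rw [e]
      exact h1
    have hc4 : IsCoprime ((p : ℤ) ^ 2) 4 := by
      apply IsCoprime.pow_left
      rw [hpp.coprime_iff_not_dvd]
      intro hd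
      have h3 : p ∣ 4 := by exact_mod_cast hd
      have h4 : p ∣ 2 ^ 2 := by norm_num; exact h3
      exact hp2 ((Nat.prime_dvd_prime_iff_eq hp Nat.prime_two).1 (hp.dvd_of_dvd_pow h4))
    have h3 := hc4.dvd_of_dvd_mul_left h2
    apply pow_dvd_or hp h3
    rintro ⟨ha, hb⟩
    have h4 : (p : ℤ) ∣ 2 * ((N : ℤ) + i) := by
      have e : 2 * ((N : ℤ) + i) = ((i : ℤ) - j) + ((i : ℤ) + j + 2 * N) := by ring
      rw [e]
      exact dvd_add ha hb
    rcases hpp.dvd_or_dvd h4 with h5 | h5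
    · have h6 : p ∣ 2 := by exact_mod_cast h5
      exact hp2 ((Nat.prime_dvd_prime_iff_eq hp Nat.prime_two).1 h6)
    · exact hnd i hi h5
  set F1 := F.filter fun i : ℕ => (p : ℤ) ^ 2 ∣ (i : ℤ) - j with hF1
  set F2 := F.filter fun i : ℕ => (p : ℤ) ^ 2 ∣ (i : ℤ) + j + 2 * N with hF2
  have hsub : F ⊆ F1 ∪ F2 := by
    intro i hi
    rcases hcase i hi with h | h
    · exact mem_union.2 (Or.inl (mem_filter.2 ⟨hi, h⟩))
    · exact mem_union.2 (Or.inr (mem_filter.2 ⟨hi, h⟩))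
  have hk : 0 < p ^ 2 := pow_pos hp.pos 2
  have hbd : ∀ i ∈ F, (0 : ℝ) ≤ ((i : ℤ) : ℝ) ∧ (((i : ℤ) : ℝ)) ≤ 0 + (L : ℝ) := by
    intro i hi
    have h1 := (hmem i hi).1
    refine ⟨by positivity, ?_⟩
    rw [zero_add]
    push_cast
    exact_mod_cast h1.le
  have hinj : ∀ G : Finset ℕ, Set.InjOn (fun i : ℕ => (i : ℤ)) G := fun G =>
    Nat.cast_injective.injOn
  have c1 : (F1.card : ℝ) ≤ (L : ℝ) / ((p ^ 2 : ℕ) : ℝ) + 1 := by
    apply card_of_dvd F1 (fun i : ℕ => (i : ℤ)) (hinj F1) hk (by positivity)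
    · intro i hi
      rw [hF1, mem_filter] at hi
      exact hbd i hi.1
    · intro i hi i' hi'
      rw [hF1, mem_filter] at hi hi'
      have h1 := dvd_sub hi.2 hi'.2
      have e : (i : ℤ) - i' = ((i : ℤ) - j) - ((i' : ℤ) - j) := by ring
      push_cast
      rw [e]
      exact h1
  have c2 : (F2.card : ℝ) ≤ (L : ℝ) / ((p ^ 2 : ℕ) : ℝ) + 1 := by
    apply card_of_dvd F2 (fun i : ℕ => (i : ℤ)) (hinj F2) hk (by positivity)
    · intro i hi
      rw [hF2, mem_filter] at hi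
      exact hbd i hi.1
    · intro i hi i' hi'
      rw [hF2, mem_filter] at hi hi'
      have h1 := dvd_sub hi.2 hi'.2
      have e : (i : ℤ) - i' = ((i : ℤ) + j + 2 * N) - ((i' : ℤ) + j + 2 * N) := by ring
      push_cast
      rw [e]
      exact h1
  have c3 : (F.card : ℝ) ≤ (F1.card : ℝ) + F2.card := by
    have := (card_le_card hsub).trans (card_union_le F1 F2)
    exact_mod_cast this
  push_cast at c1 c2
  linarith

/-- the prime `m` itself -/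
theorem row_self {m N L : ℕ} (hm : 0 < m) :
    (((range L).filter fun i => m ∣ N + i).card : ℝ) ≤ (L : ℝ) / m + 1 := by
  classical
  apply card_of_dvd _ (fun i : ℕ => (i : ℤ)) Nat.cast_injective.injOn hm (by positivity)
    (lo := 0)
  · intro i hi
    rw [mem_filter, mem_range] at hi
    refine ⟨by positivity, ?_⟩
    rw [zero_add]
    push_cast
    exact_mod_cast hi.1.le
  · intro i hi j hj
    rw [mem_filter] at hi hj
    have h1 : (m : ℤ) ∣ (N : ℤ) + i := by exact_mod_cast hi.2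
    have h2 : (m : ℤ) ∣ (N : ℤ) + j := by exact_mod_cast hj.2
    have e : (i : ℤ) - j = ((N : ℤ) + i) - ((N : ℤ) + j) := by ring
    rw [e]
    exact dvd_sub h1 h2

open Classical in
/-- large primes -/
theorem row_big {m g N L B P : ℕ} (hm : m.Prime) (hm2 : m ≠ 2) (hg : 1 ≤ g) (hP : 0 < P)
    (hlo : ∀ i < L, (2 * (N + i)) ^ 2 < m ^ g) (hB : ∀ i < L, m ^ g ≤ (2 * (N + i)) ^ 2 + B)
    (hBN : B < (2 * N) ^ 2) :
    (((range L).filter fun i => ¬ m ∣ N + i ∧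
      ∃ p : ℕ, p.Prime ∧ P < p ∧ p ^ 2 ∣ m ^ g - (2 * (N + i)) ^ 2).card : ℝ) ≤
        (B : ℝ) / (P : ℝ) ^ 2 := by
  classical
  set F := (range L).filter fun i => ¬ m ∣ N + i ∧
      ∃ p : ℕ, p.Prime ∧ P < p ∧ p ^ 2 ∣ m ^ g - (2 * (N + i)) ^ 2 with hF
  have hex : ∀ i : ℕ, ∃ p : ℕ, i ∈ F → p.Prime ∧ P < p ∧ p ^ 2 ∣ m ^ g - (2 * (N + i)) ^ 2 := by
    intro i
    by_cases hi : i ∈ F
    · have h := hi
      rw [hF, mem_filter] at h
      obtain ⟨_, _, p, hp⟩ := h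
      exact ⟨p, fun _ => hp⟩
    · exact ⟨0, fun h => absurd h hi⟩
  choose q hq using hex
  have hP' : (0 : ℝ) < (P : ℝ) ^ 2 := by positivity
  have hmem : ∀ i ∈ F, i < L ∧ ¬ m ∣ N + i := by
    intro i hi
    rw [hF, mem_filter, mem_range] at hi
    exact ⟨hi.1, hi.2.1⟩
  set κ : ℕ → ℕ := fun i => (m ^ g - (2 * (N + i)) ^ 2) / (q i) ^ 2 with hκ
  have hκ1 : ∀ i ∈ F, κ i * (q i) ^ 2 = m ^ g - (2 * (N + i)) ^ 2 := fun i hi =>
    Nat.div_mul_cancel (hq i hi).2.2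
  have hκeq : ∀ i ∈ F, m ^ g = (2 * (N + i)) ^ 2 + κ i * (q i) ^ 2 := by
    intro i hi
    have h1 := hκ1 i hi
    have h2 := hlo i (hmem i hi).1
    omega
  have hκpos : ∀ i ∈ F, 1 ≤ κ i := by
    intro i hi
    have h1 := hκ1 i hi
    have h2 := hlo i (hmem i hi).1
    rcases Nat.eq_zero_or_pos (κ i) with h0 | h0
    · rw [h0, zero_mul] at h1; omega
    · exact h0
  have hκle : ∀ i ∈ F, κ i * (q i) ^ 2 ≤ B := by
    intro i hi
    have h1 := hκeq i hi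
    have h2 := hB i (hmem i hi).1
    omega
  have hsub : F.card ≤ (Finset.Icc 1 ⌊(B : ℝ) / (P : ℝ) ^ 2⌋₊).card := by
    refine Finset.card_le_card_of_injOn κ ?_ ?_
    · intro i hi
      have hi' : i ∈ F := hi
      rw [Finset.coe_Icc, Set.mem_Icc]
      refine ⟨hκpos i hi', ?_⟩
      apply Nat.le_floor
      rw [le_div_iff₀ hP']
      have h1 : κ i * P ^ 2 ≤ B :=
        (Nat.mul_le_mul_left _ (Nat.pow_le_pow_left (hq i hi').2.1.le 2)).trans (hκle i hi')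
      exact_mod_cast h1
    · intro i hi j hj hij
      have hi' : i ∈ F := hi
      have hj' : j ∈ F := hj
      have hndi : ∀ i ∈ F, ¬ m ∣ 2 * (N + i) := by
        intro i hi hd
        rcases hm.dvd_mul.1 hd with h | h
        · exact hm2 ((Nat.prime_dvd_prime_iff_eq hm Nat.prime_two).1 h)
        · exact (hmem i hi).2 h
      have hbi : ∀ i ∈ F, κ i * (q i) ^ 2 < (2 * (N + i)) ^ 2 := by
        intro i hi
        have h1 := hκle i hi
        have h2 : (2 * N) ^ 2 ≤ (2 * (N + i)) ^ 2 := Nat.pow_le_pow_left (by omega) 2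
        omega
      have h1 := inj (k := κ i) hm hm2 hg (hκpos i hi') (hκeq i hi')
        (by rw [show κ i = κ j from hij]; exact hκeq j hj') (hq i hi').1 (hq j hj').1 (hndi i hi')
        (hndi j hj') (hbi i hi') (by rw [show κ i = κ j from hij]; exact hbi j hj')
      omega
  have h1 : (((Finset.Icc 1 ⌊(B : ℝ) / (P : ℝ) ^ 2⌋₊).card : ℕ) : ℝ) ≤ (B : ℝ) / (P : ℝ) ^ 2 := by
    rw [Nat.card_Icc, Nat.add_sub_cancel]
    exact Nat.floor_le (by positivity)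
  have h2 : (F.card : ℝ) ≤ ((Finset.Icc 1 ⌊(B : ℝ) / (P : ℝ) ^ 2⌋₊).card : ℝ) := by
    exact_mod_cast hsub
  linarith

theorem sum_odd (P : ℕ) (L : ℝ) (hL : 0 ≤ L) :
    ∑ j ∈ Ioc 0 P, 2 * (L / (((2 * j + 1 : ℕ) : ℝ) ^ 2) + 1) ≤ L / 2 + 2 * P := by
  have key : ∀ P : ℕ, ∑ j ∈ Ioc 0 P, 2 * (L / (((2 * j + 1 : ℕ) : ℝ) ^ 2) + 1) ≤
      L / 2 * (1 - 1 / ((P : ℝ) + 1)) + 2 * P := by
    intro P
    induction P with
    | zero => simp
    | succ P ih =>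
      rw [← Finset.insert_Ioc_right_eq_Ioc_add_one (by omega : 0 ≤ P), Finset.sum_insert (by simp)]
      have hP : (0 : ℝ) ≤ P := by positivity
      have h1 : L / (((2 * (P + 1) + 1 : ℕ) : ℝ) ^ 2) ≤
          L / 4 * (1 / ((P : ℝ) + 1) - 1 / ((P : ℝ) + 2)) := by
        have e : (1 : ℝ) / ((P : ℝ) + 1) - 1 / ((P : ℝ) + 2) = 1 / (((P : ℝ) + 1) * ((P : ℝ) + 2)) := by
          field_simp
          ring
        rw [e]
        have h2 : L / 4 * (1 / (((P : ℝ) + 1) * ((P : ℝ) + 2))) =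
            L / (4 * (((P : ℝ) + 1) * ((P : ℝ) + 2))) := by
          field_simp
        rw [h2]
        apply div_le_div_of_nonneg_left hL (by positivity)
        push_cast
        nlinarith
      push_cast at ih h1 ⊢
      have e2 : (P : ℝ) + 1 + 1 = P + 2 := by ring
      rw [e2]
      linarith
  refine (key P).trans ?_
  have h1 : (0 : ℝ) ≤ 1 / ((P : ℝ) + 1) := by positivity
  nlinarith

open Classical in
/-- the number of squarefree values in one row -/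
theorem row_count {m g N L B P : ℕ} (hm : m.Prime) (hm2 : m ≠ 2) (hg : 1 ≤ g) (hP : 0 < P)
    (hlo : ∀ i < L, (2 * (N + i)) ^ 2 < m ^ g) (hB : ∀ i < L, m ^ g ≤ (2 * (N + i)) ^ 2 + B)
    (hBN : B < (2 * N) ^ 2) :
    (L : ℝ) / 6 - 1 - 2 * P - (B : ℝ) / (4 * (P : ℝ) ^ 2) ≤
      (((range L).filter fun i => Squarefree (m ^ g - (2 * (N + i)) ^ 2)).card : ℝ) := by
  set G := (range L).filter fun i => Squarefree (m ^ g - (2 * (N + i)) ^ 2) with hG
  set G1 := (range L).filter fun i => m ∣ N + i with hG1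
  set G2 := (range L).filter fun i => ¬ m ∣ N + i ∧
      ∃ p : ℕ, p.Prime ∧ 2 * P < p ∧ p ^ 2 ∣ m ^ g - (2 * (N + i)) ^ 2 with hG2
  set Q : ℕ → ℕ → Prop := fun j i => (2 * j + 1).Prime ∧ 2 * j + 1 ≠ m ∧
    (2 * j + 1) ^ 2 ∣ m ^ g - (2 * (N + i)) ^ 2 with hQ
  obtain ⟨R, hR⟩ : ∃ R : ℕ → Prop, ∀ i, R i ↔ ∃ j ∈ Ioc 0 P, Q j i := ⟨_, fun _ => Iff.rfl⟩
  set G3 := (range L).filter R with hG3
  have c1 : (G1.card : ℝ) ≤ (L : ℝ) / 3 + 1 := by
    refine (row_self hm.pos).trans ?_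
    have h3 : 3 ≤ m := by
      have := hm.two_le
      omega
    have h4 : (L : ℝ) / m ≤ (L : ℝ) / 3 := by
      apply div_le_div_of_nonneg_left (by positivity) (by norm_num)
      exact_mod_cast h3
    linarith
  have c2 : (G2.card : ℝ) ≤ (B : ℝ) / (4 * (P : ℝ) ^ 2) := by
    have h1 := row_big (P := 2 * P) hm hm2 hg (by omega) hlo hB hBN
    have h2 : (B : ℝ) / (((2 * P : ℕ) : ℝ)) ^ 2 = (B : ℝ) / (4 * (P : ℝ) ^ 2) := by
      push_cast
      congr 1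
      ring
    rw [h2] at h1
    exact h1
  have hrow : ∀ j ∈ Ioc 0 P, (((range L).filter (Q j)).card : ℝ) ≤
      2 * ((L : ℝ) / (((2 * j + 1 : ℕ) : ℝ) ^ 2) + 1) := by
    intro j hj
    by_cases hp : (2 * j + 1).Prime ∧ 2 * j + 1 ≠ m
    · have hpA : ¬ (2 * j + 1) ∣ m ^ g := by
        intro hd
        exact hp.2 ((Nat.prime_dvd_prime_iff_eq hp.1 hm).1 (hp.1.dvd_of_dvd_pow hd))
      have h1 := row_prime (A := m ^ g) (N := N) (L := L) hp.1 (by omega) hpA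
        (fun i hi => (hlo i hi).le)
      refine le_trans ?_ h1
      have : ((range L).filter (Q j)) ⊆ ((range L).filter fun i => (2 * j + 1) ^ 2 ∣
          m ^ g - (2 * (N + i)) ^ 2) := by
        intro i hi
        rw [mem_filter] at hi ⊢
        exact ⟨hi.1, hi.2.2.2⟩
      exact_mod_cast card_le_card this
    · have : ((range L).filter (Q j)) = ∅ := by
        rw [filter_eq_empty_iff]
        intro i _ hq
        exact hp ⟨hq.1, hq.2.1⟩
      rw [this]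
      simp only [card_empty, Nat.cast_zero]
      positivity
  have c3 : (G3.card : ℝ) ≤ (L : ℝ) / 2 + 2 * P := by
    have hub := union_bound (range L) 0 P Q
      (fun j => 2 * ((L : ℝ) / (((2 * j + 1 : ℕ) : ℝ) ^ 2) + 1))
    have hub' : (G3.card : ℝ) ≤ ∑ j ∈ Ioc 0 P,
        2 * ((L : ℝ) / (((2 * j + 1 : ℕ) : ℝ) ^ 2) + 1) := by
      refine le_trans (le_of_eq ?_) (hub hrow)
      rw [hG3]
      congr 2
      ext i
      simp only [mem_filter, hR]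
    exact hub'.trans (sum_odd P L (by positivity))
  have hodd : Odd m := hm.odd_of_ne_two hm2
  have hsub : range L ⊆ G ∪ (G1 ∪ (G2 ∪ G3)) := by
    intro i hi
    by_cases hsf : Squarefree (m ^ g - (2 * (N + i)) ^ 2)
    · exact mem_union.2 (Or.inl (mem_filter.2 ⟨hi, hsf⟩))
    refine mem_union.2 (Or.inr ?_)
    by_cases h1 : m ∣ N + i
    · exact mem_union.2 (Or.inl (mem_filter.2 ⟨hi, h1⟩))
    refine mem_union.2 (Or.inr ?_)
    rw [Nat.squarefree_iff_prime_squarefree] at hsf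
    push Not at hsf
    obtain ⟨p, hp, hpd⟩ := hsf
    rw [← sq] at hpd
    have hiL := mem_range.1 hi
    have hlt := hlo i hiL
    have hp2 : p ≠ 2 := by
      rintro rfl
      have h3 : 2 ∣ m ^ g - (2 * (N + i)) ^ 2 := dvd_trans (by norm_num) hpd
      have h4 : 2 ∣ (2 * (N + i)) ^ 2 := dvd_trans (dvd_mul_right 2 _) (dvd_pow_self _ (by norm_num))
      have h5 : 2 ∣ m ^ g := by
        have := dvd_add h3 h4
        rwa [Nat.sub_add_cancel hlt.le] at this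
      have h6 : Odd (m ^ g) := hodd.pow
      exact (Nat.not_even_iff_odd.2 h6) (even_iff_two_dvd.2 h5)
    have hpm : p ≠ m := by
      intro hpm
      have h3 : m ∣ m ^ g - (2 * (N + i)) ^ 2 := by
        have h30 : p ∣ m ^ g - (2 * (N + i)) ^ 2 := dvd_trans (dvd_pow_self p (by norm_num)) hpd
        rwa [hpm] at h30
      have h4 : m ∣ m ^ g := dvd_pow_self m (by omega)
      have h5 : m ∣ (2 * (N + i)) ^ 2 := by
        have h6 : m ∣ (m ^ g - (2 * (N + i)) ^ 2) + (2 * (N + i)) ^ 2 := by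
          rw [Nat.sub_add_cancel hlt.le]; exact h4
        exact (Nat.dvd_add_right h3).1 h6
      rcases hm.dvd_mul.1 (hm.dvd_of_dvd_pow h5) with h7 | h7
      · exact hm2 ((Nat.prime_dvd_prime_iff_eq hm Nat.prime_two).1 h7)
      · exact h1 h7
    by_cases hbig : 2 * P < p
    · exact mem_union.2 (Or.inl (mem_filter.2 ⟨hi, h1, p, hp, hbig, hpd⟩))
    · refine mem_union.2 (Or.inr ?_)
      have hpo : Odd p := hp.odd_of_ne_two hp2
      obtain ⟨j, hj⟩ := hpo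
      have hp2' := hp.two_le
      rw [hG3, mem_filter, hR]
      refine ⟨hi, j, mem_Ioc.2 ⟨by omega, by omega⟩, ?_, ?_, ?_⟩
      · rw [← hj]; exact hp
      · rw [← hj]; exact hpm
      · rw [← hj]; exact hpd
  have hcard := (card_le_card hsub).trans ((card_union_le _ _).trans
    (Nat.add_le_add_left ((card_union_le _ _).trans (Nat.add_le_add_left (card_union_le _ _) _)) _))
  rw [card_range] at hcard
  have hcard' : (L : ℝ) ≤ G.card + (G1.card + (G2.card + G3.card)) := by exact_mod_cast hcard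
  linarith

end Pool.Agent.TH861.CG
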