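import Mathlib
import Pool.Agent.TH861.CG.Row

set_option autoImplicit false

/-!
# Squarefree `D = m ^ g - n ^ 2` in `[X, X + H]` for one prime `m`
-/

namespace Pool.Agent.TH861.CG

open Finset

theorem one_m {X H Q : ℝ} {m g : ℕ} (hm : m.Prime) (hm2 : m ≠ 2) (hg : 1 ≤ g) (hX : 0 < X)
    (hH : 0 < H) (hHX : H ≤ X) (hA : 4 * X < (m : ℝ) ^ g) (hQ : Q ≤ H / (8 * √((m : ℝ) ^ g)))
    (hQ1 : 10 ^ 4 ≤ Q) (hQ2 : 2 * 10 ^ 6 * X ≤ Q ^ 3) :
    ∃ S : Finset ℕ, Q / 10 ≤ (S.card : ℝ) ∧ ∀ D ∈ S, Squarefree D ∧ X ≤ D ∧ (D : ℝ) ≤ X + H ∧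
      ∃ n : ℕ, m ^ g = D + n ^ 2 := by
  classical
  set A : ℝ := (m : ℝ) ^ g with hAdef
  have hA0 : 0 < A := by linarith
  set s1 := √(A - X - H) with hs1
  set s2 := √(A - X) with hs2
  have e1 : s1 ^ 2 = A - X - H := Real.sq_sqrt (by linarith)
  have e2 : s2 ^ 2 = A - X := Real.sq_sqrt (by linarith)
  have hs1p : 0 < s1 := Real.sqrt_pos.2 (by linarith)
  have hs2p : 0 < s2 := Real.sqrt_pos.2 (by linarith)
  have hs12 : s1 ≤ s2 := Real.sqrt_le_sqrt (by linarith)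
  have hs2A : s2 ≤ √A := Real.sqrt_le_sqrt (by linarith)
  have hsA : 0 < √A := Real.sqrt_pos.2 hA0
  have hdiff : H / (2 * √A) ≤ s2 - s1 := by
    rw [div_le_iff₀ (by positivity)]
    have h1 : H = (s2 - s1) * (s2 + s1) := by linear_combination e1 - e2
    have h2 : s2 + s1 ≤ 2 * √A := by linarith
    calc H = (s2 - s1) * (s2 + s1) := h1
      _ ≤ (s2 - s1) * (2 * √A) := mul_le_mul_of_nonneg_left h2 (by linarith)
  set N := ⌈s1 / 2⌉₊ with hN
  set L := ⌊(s2 - s1) / 2⌋₊ with hL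
  set B := ⌊X + H⌋₊ with hB
  set P := L / 60 with hP
  have hN1 : s1 / 2 ≤ N := Nat.le_ceil _
  have hN2 : (N : ℝ) < s1 / 2 + 1 := Nat.ceil_lt_add_one (by positivity)
  have hL1 : (L : ℝ) ≤ (s2 - s1) / 2 := Nat.floor_le (by linarith)
  have hL2 : (s2 - s1) / 2 < L + 1 := Nat.lt_floor_add_one _
  have hLQ : Q ≤ L := by
    have h1 : 2 * Q ≤ (s2 - s1) / 2 := by
      have h2 : H / (8 * √A) = (H / (2 * √A)) / 4 := by field_simp; ring
      rw [h2] at hQ
      linarith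
    linarith
  have hup : ∀ i < L, (2 * ((N : ℝ) + i)) ≤ s2 := by
    intro i hi
    have h1 : (i : ℝ) + 1 ≤ L := by exact_mod_cast hi
    linarith
  have hval : ∀ i < L, X ≤ A - (2 * ((N : ℝ) + i)) ^ 2 ∧ A - (2 * ((N : ℝ) + i)) ^ 2 ≤ X + H := by
    intro i hi
    have h1 := hup i hi
    have h2 : s1 ≤ 2 * ((N : ℝ) + i) := by
      have : (0 : ℝ) ≤ i := by positivity
      linarith
    have h3 : (2 * ((N : ℝ) + i)) ^ 2 ≤ s2 ^ 2 := pow_le_pow_left₀ (by positivity) h1 2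
    have h4 : s1 ^ 2 ≤ (2 * ((N : ℝ) + i)) ^ 2 := pow_le_pow_left₀ hs1p.le h2 2
    constructor <;> linarith
  have hlo : ∀ i < L, (2 * (N + i)) ^ 2 < m ^ g := by
    intro i hi
    have h1 := (hval i hi).1
    have h2 : (((2 * (N + i)) ^ 2 : ℕ) : ℝ) < ((m ^ g : ℕ) : ℝ) := by
      push_cast
      rw [← hAdef]
      linarith
    exact_mod_cast h2
  have hcast : ∀ i < L, ((m ^ g - (2 * (N + i)) ^ 2 : ℕ) : ℝ) = A - (2 * ((N : ℝ) + i)) ^ 2 := by
    intro i hi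
    rw [Nat.cast_sub (hlo i hi).le]
    push_cast
    rfl
  have hBle : ∀ i < L, m ^ g ≤ (2 * (N + i)) ^ 2 + B := by
    intro i hi
    have h1 := (hval i hi).2
    rw [← hcast i hi] at h1
    have h2 : m ^ g - (2 * (N + i)) ^ 2 ≤ B := Nat.le_floor h1
    omega
  have hBX : (B : ℝ) ≤ 2 * X := (Nat.floor_le (by linarith)).trans (by linarith)
  have hBN : B < (2 * N) ^ 2 := by
    have h1 : s1 ^ 2 ≤ (2 * (N : ℝ)) ^ 2 := pow_le_pow_left₀ hs1p.le (by linarith) 2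
    have h2 : (B : ℝ) < (((2 * N) ^ 2 : ℕ) : ℝ) := by
      push_cast
      linarith
    exact_mod_cast h2
  have hL60 : 60 ≤ L := by
    have h1 : (60 : ℝ) ≤ L := by linarith
    exact_mod_cast h1
  have hP0 : 0 < P := Nat.div_pos hL60 (by norm_num)
  have hcount := row_count hm hm2 hg hP0 hlo hBle hBN
  have hP1 : (P : ℝ) ≤ L / 60 := by
    rw [le_div_iff₀ (by norm_num)]
    have : P * 60 ≤ L := Nat.div_mul_le_self L 60
    exact_mod_cast this
  have hP2 : (L : ℝ) / 61 ≤ P := by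
    have h1 : L < (P + 1) * 60 := by
      have := Nat.lt_div_mul_add (a := L) (b := 60) (by norm_num)
      omega
    have h2 : (L : ℝ) < (P + 1) * 60 := by exact_mod_cast h1
    rw [div_le_iff₀ (by norm_num)]
    linarith
  have hLpos : (0 : ℝ) < L := by linarith
  have hBP : (B : ℝ) / (4 * (P : ℝ) ^ 2) ≤ L / 1000 := by
    have h1 : (L : ℝ) ^ 2 / 3721 ≤ (P : ℝ) ^ 2 := by
      calc (L : ℝ) ^ 2 / 3721 = (L / 61) ^ 2 := by ring
        _ ≤ (P : ℝ) ^ 2 := pow_le_pow_left₀ (by positivity) hP2 2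
    have h2 : Q ^ 3 ≤ (L : ℝ) ^ 3 := pow_le_pow_left₀ (by linarith) hLQ 3
    rw [div_le_iff₀ (by positivity)]
    have h3 : (L : ℝ) / 1000 * (4 * ((L : ℝ) ^ 2 / 3721)) ≤ L / 1000 * (4 * (P : ℝ) ^ 2) := by
      gcongr
    have h4 : (L : ℝ) / 1000 * (4 * ((L : ℝ) ^ 2 / 3721)) = (L : ℝ) ^ 3 * (4 / 3721000) := by ring
    nlinarith
  set G := (range L).filter fun i => Squarefree (m ^ g - (2 * (N + i)) ^ 2) with hG
  have hGc : Q / 10 ≤ (G.card : ℝ) := by linarith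
  refine ⟨G.image fun i => m ^ g - (2 * (N + i)) ^ 2, ?_, ?_⟩
  · rw [Finset.card_image_of_injOn]
    · exact hGc
    · intro i hi j hj hij
      have hi' := (mem_filter.1 hi).1
      have hj' := (mem_filter.1 hj).1
      rw [mem_range] at hi' hj'
      have h1 := hlo i hi'
      have h2 := hlo j hj'
      simp only at hij
      have h3 : (2 * (N + i)) ^ 2 = (2 * (N + j)) ^ 2 := by omega
      have h4 := Nat.pow_left_injective (by norm_num : (2 : ℕ) ≠ 0) h3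
      omega
  · intro D hD
    rw [mem_image] at hD
    obtain ⟨i, hi, rfl⟩ := hD
    rw [hG, mem_filter, mem_range] at hi
    refine ⟨hi.2, ?_, ?_, 2 * (N + i), ?_⟩
    · rw [hcast i hi.1]; exact (hval i hi.1).1
    · rw [hcast i hi.1]; exact (hval i hi.1).2
    · have := hlo i hi.1
      omega

/-- union of sets with small pairwise intersections -/
theorem union_lower {S : ℕ → Finset ℕ} {T I : ℝ} (hI : 0 ≤ I) (s : Finset ℕ)
    (hT : ∀ m ∈ s, T ≤ ((S m).card : ℝ))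
    (hp : ∀ m ∈ s, ∀ m' ∈ s, m ≠ m' → ((S m ∩ S m').card : ℝ) ≤ I) :
    (s.card : ℝ) * (T - s.card * I) ≤ ((s.biUnion S).card : ℝ) := by
  classical
  induction s using Finset.induction_on with
  | empty => simp
  | insert a s ha ih =>
    have ih' := ih (fun m hm => hT m (mem_insert_of_mem hm))
      (fun m hm m' hm' => hp m (mem_insert_of_mem hm) m' (mem_insert_of_mem hm'))
    rw [card_insert_of_notMem ha, biUnion_insert]
    have h1 : ((S a ∩ s.biUnion S).card : ℝ) ≤ s.card * I := by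
      have h2 : S a ∩ s.biUnion S = s.biUnion fun m => S a ∩ S m := by
        rw [inter_biUnion]
      rw [h2]
      calc (((s.biUnion fun m => S a ∩ S m).card : ℕ) : ℝ)
          ≤ ((∑ m ∈ s, (S a ∩ S m).card : ℕ) : ℝ) := by exact_mod_cast card_biUnion_le
        _ = ∑ m ∈ s, ((S a ∩ S m).card : ℝ) := by push_cast; rfl
        _ ≤ ∑ m ∈ s, I := sum_le_sum fun m hm => hp a (mem_insert_self a s) m
            (mem_insert_of_mem hm) (fun h => ha (h ▸ hm))
        _ = _ := by rw [sum_const, nsmul_eq_mul]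
    have h3 : ((S a ∪ s.biUnion S).card : ℝ) + ((S a ∩ s.biUnion S).card : ℝ) =
        (S a).card + (s.biUnion S).card := by
      exact_mod_cast card_union_add_card_inter _ _
    have h4 := hT a (mem_insert_self a s)
    push_cast
    nlinarith

/-- `m ^ g - n ^ 2 = m' ^ g - n' ^ 2` has few solutions `(n, n')` -/
theorem inter_card {S S' : Finset ℕ} {A A' : ℕ} (hne : A' < A)
    (hS : ∀ D ∈ S, ∃ n : ℕ, A = D + n ^ 2) (hS' : ∀ D ∈ S', ∃ n : ℕ, A' = D + n ^ 2) :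
    (S ∩ S').card ≤ (A - A').divisors.card := by
  classical
  have hex : ∀ D : ℕ, ∃ q : ℕ × ℕ, D ∈ S ∩ S' → A = D + q.1 ^ 2 ∧ A' = D + q.2 ^ 2 := by
    intro D
    by_cases hD : D ∈ S ∩ S'
    · obtain ⟨n, hn⟩ := hS D (mem_inter.1 hD).1
      obtain ⟨n', hn'⟩ := hS' D (mem_inter.1 hD).2
      exact ⟨(n, n'), fun _ => ⟨hn, hn'⟩⟩
    · exact ⟨(0, 0), fun h => absurd h hD⟩
  choose q hq using hex
  refine Finset.card_le_card_of_injOn (fun D => (q D).1 + (q D).2) ?_ ?_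
  · intro D hD
    obtain ⟨h1, h2⟩ := hq D hD
    rw [Finset.mem_coe, Nat.mem_divisors]
    refine ⟨⟨(q D).1 - (q D).2, ?_⟩, by omega⟩
    have h3 : (q D).2 ^ 2 ≤ (q D).1 ^ 2 := by omega
    rw [← Nat.sq_sub_sq]
    omega
  · intro D hD D' hD' hDD
    obtain ⟨h1, h2⟩ := hq D hD
    obtain ⟨h3, h4⟩ := hq D' hD'
    simp only at hDD
    have z1 : (A : ℤ) = D + ((q D).1 : ℤ) ^ 2 := by exact_mod_cast h1
    have z2 : (A' : ℤ) = D + ((q D).2 : ℤ) ^ 2 := by exact_mod_cast h2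
    have z3 : (A : ℤ) = D' + ((q D').1 : ℤ) ^ 2 := by exact_mod_cast h3
    have z4 : (A' : ℤ) = D' + ((q D').2 : ℤ) ^ 2 := by exact_mod_cast h4
    have z5 : ((q D).1 : ℤ) + (q D).2 = (q D').1 + (q D').2 := by exact_mod_cast hDD
    have z6 : (A' : ℤ) < A := by exact_mod_cast hne
    -- (n - n')(n + n') is constant
    have z7 : (((q D).1 : ℤ) + (q D).2) * (((q D).1 : ℤ) - (q D).2 - ((q D').1 - (q D').2)) = 0 := by
      linear_combination -z1 + z2 + z3 - z4 - (((q D').1 : ℤ) - (q D').2) * z5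
    rcases mul_eq_zero.1 z7 with h5 | h5
    · exfalso
      have h6 : (q D).1 + (q D).2 = 0 := by exact_mod_cast h5
      have h7 : (q D).1 = 0 := by omega
      have h8 : (q D).2 = 0 := by omega
      rw [h7] at z1
      rw [h8] at z2
      linarith
    · have h6 : ((q D).1 : ℤ) = (q D').1 := by linarith
      have h7 : (q D).1 = (q D').1 := by exact_mod_cast h6
      rw [h7] at h1
      omega

end Pool.Agent.TH861.CG
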