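import Mathlib

set_option autoImplicit false

/-!
# Primes in `(n, 16 n]`
-/

namespace Pool.Agent.TH861.CG

open Finset

theorem theta_nat (n : ℕ) : Chebyshev.theta (n : ℝ) =
    ∑ p ∈ (Ioc 0 n).filter Nat.Prime, Real.log p := by
  rw [Chebyshev.theta, Nat.floor_natCast]

theorem primes_count {n : ℕ} (hn : 2 ^ 32 ≤ n) :
    (n : ℝ) / Real.log n ≤ (((Ioc n (16 * n)).filter Nat.Prime).card : ℝ) := by
  have hnr : (2 : ℝ) ^ 32 ≤ n := by exact_mod_cast hn
  have hn0 : (0 : ℝ) < n := lt_of_lt_of_le (by norm_num) hnr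
  have hn1 : (1 : ℝ) < n := lt_of_lt_of_le (by norm_num) hnr
  set t : ℝ := (n : ℝ) ^ (1 / 4 : ℝ) with ht
  have ht4 : t ^ 4 = n := by
    rw [ht, ← Real.rpow_natCast, ← Real.rpow_mul hn0.le]
    norm_num
  have ht0 : 0 < t := Real.rpow_pos_of_pos hn0 _
  have ht256 : 256 ≤ t := by
    by_contra hlt
    push Not at hlt
    have h1 : t ^ 4 < 256 ^ 4 := pow_lt_pow_left₀ hlt ht0.le (by norm_num)
    rw [ht4] at h1
    norm_num at h1 hnr
    linarith
  have hlog16 : Real.log (16 * n) ≤ 8 * t := by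
    have h1 := Real.log_le_rpow_div (x := 16 * (n : ℝ)) (by positivity) (ε := 1 / 4) (by norm_num)
    have h2 : (16 * (n : ℝ)) ^ (1 / 4 : ℝ) = 2 * t := by
      rw [Real.mul_rpow (by norm_num) hn0.le, ht]
      congr 1
      rw [show (16 : ℝ) = 2 ^ (4 : ℝ) by norm_num, ← Real.rpow_mul (by norm_num)]
      norm_num
    rw [h2] at h1
    linarith
  have hlogn : 0 < Real.log n := Real.log_pos hn1
  have hsqrt : √((16 * n : ℕ) : ℝ) = 4 * t ^ 2 := by
    rw [show ((16 * n : ℕ) : ℝ) = (4 * t ^ 2) ^ 2 by push_cast; rw [mul_pow, ← pow_mul, ht4]; norm_num]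
    exact Real.sqrt_sq (by positivity)
  have h1 := Chebyshev.theta_ge (16 * n)
  rw [hsqrt] at h1
  have hc : Real.log ((16 * n : ℕ) : ℝ) = Real.log (16 * n) := by push_cast; rfl
  rw [hc] at h1
  have h2 := Chebyshev.theta_le_log4_mul_x hn0.le
  have hlog4 : Real.log 4 = 2 * Real.log 2 := by
    rw [show (4 : ℝ) = 2 ^ 2 by norm_num, Real.log_pow]; norm_num
  rw [hlog4] at h2
  have hl2 := Real.log_two_gt_d9
  have h3 : Real.log (((16 * n : ℕ) : ℝ) + 1) ≤ 8 * t + 1 := by
    have h4 : ((16 * n : ℕ) : ℝ) + 1 ≤ 2 * (16 * n) := by push_cast; linarith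
    have h5 := Real.log_le_log (by positivity) h4
    rw [Real.log_mul (by norm_num) (by positivity)] at h5
    have := Real.log_two_lt_d9
    linarith
  have hdiff : Chebyshev.theta ((16 * n : ℕ) : ℝ) - Chebyshev.theta (n : ℝ) =
      ∑ p ∈ (Ioc n (16 * n)).filter Nat.Prime, Real.log p := by
    rw [theta_nat, theta_nat]
    have h6 : (Ioc 0 (16 * n)).filter Nat.Prime =
        (Ioc 0 n).filter Nat.Prime ∪ (Ioc n (16 * n)).filter Nat.Prime := by
      rw [← filter_union, Ioc_union_Ioc_eq_Ioc (by omega) (by omega)]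
    rw [h6, sum_union]
    · ring
    · rw [disjoint_left]
      intro p hp hp'
      rw [mem_filter, mem_Ioc] at hp hp'
      omega
  have hle : ∑ p ∈ (Ioc n (16 * n)).filter Nat.Prime, Real.log p ≤
      (((Ioc n (16 * n)).filter Nat.Prime).card : ℝ) * Real.log (16 * n) := by
    rw [← nsmul_eq_mul]
    apply sum_le_card_nsmul
    intro p hp
    rw [mem_filter, mem_Ioc] at hp
    have h7 : (p : ℝ) ≤ 16 * n := by exact_mod_cast hp.1.2
    exact Real.log_le_log (by exact_mod_cast hp.2.pos) h7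
  have hlogle : Real.log (16 * n) ≤ 2 * Real.log n := by
    rw [Real.log_mul (by norm_num) hn0.ne']
    have : Real.log 16 ≤ Real.log n := Real.log_le_log (by norm_num) (by linarith)
    linarith
  set C : ℝ := (((Ioc n (16 * n)).filter Nat.Prime).card : ℝ) with hC
  have hC0 : 0 ≤ C := by positivity
  have h8 : C * Real.log (16 * n) ≤ C * (2 * Real.log n) := mul_le_mul_of_nonneg_left hlogle hC0
  have hmain : 2 * (n : ℝ) ≤ C * (2 * Real.log n) := by
    have h9 : 2 * (4 * t ^ 2) * Real.log (16 * n) ≤ 2 * (4 * t ^ 2) * (8 * t) := by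
      gcongr
    have h10 : 64 * t ^ 3 ≤ n / 4 := by
      rw [← ht4]
      have : t ^ 3 * 256 ≤ t ^ 3 * t := mul_le_mul_of_nonneg_left ht256 (by positivity)
      nlinarith
    have h11 : 8 * t + 1 ≤ n / 4 := by
      have : t ≤ t ^ 3 := by nlinarith [sq_nonneg t, mul_pos ht0 ht0]
      nlinarith
    have h12 : 9 * (n : ℝ) ≤ 14 * (n * Real.log 2) := by nlinarith
    push_cast at h1 h3 hdiff
    linarith
  rw [div_le_iff₀ hlogn]
  linarith

end Pool.Agent.TH861.CG
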