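import Mathlib
import Pool.Agent.TH861.CG.One
import Pool.Agent.TH861.CG.Pr
import Pool.Agent.H510R2.Div

set_option autoImplicit false

/-!
# Squarefree `D = m ^ g - n ^ 2` in every short interval, uniformly in `g`
-/

namespace Pool.Agent.TH861.CG

open Finset

/-- elementary: `X ^ η` is eventually larger than any constant and than `2 log X`. -/
theorem large (η K : ℝ) (hη : 0 < η) : ∃ X0 : ℝ, 1 < X0 ∧ ∀ X : ℝ, X0 ≤ X →
    K ≤ X ^ η ∧ 2 * Real.log X ≤ X ^ η := by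
  have h1 := tendsto_rpow_atTop hη
  have h2 : ∀ᶠ X : ℝ in Filter.atTop, K ≤ X ^ η := h1.eventually_ge_atTop K
  have h3 : ∀ᶠ X : ℝ in Filter.atTop, 2 * Real.log X ≤ X ^ η := by
    have h4 := (isLittleO_log_rpow_atTop hη).bound (show (0 : ℝ) < 1 / 2 by norm_num)
    filter_upwards [h4, Filter.eventually_ge_atTop 1] with X hX hX1
    rw [Real.norm_of_nonneg (Real.log_nonneg hX1),
      Real.norm_of_nonneg (Real.rpow_nonneg (by linarith) _)] at hX
    linarith
  obtain ⟨X0, hX0⟩ := Filter.eventually_atTop.1 (h2.and h3)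
  exact ⟨max X0 2, lt_of_lt_of_le (by norm_num) (le_max_right _ _), fun X hX =>
    hX0 X ((le_max_left _ _).trans hX)⟩

theorem main (ε : ℝ) (hε : 0 < ε) : ∃ δ X0 : ℝ, 0 < δ ∧ ∀ X H : ℝ, X0 ≤ X →
    X ^ (5 / 6 + ε) ≤ H → H ≤ X → ∀ g : ℕ, 3 ≤ g → (g : ℝ) ≤ δ * Real.log X →
      ∃ S : Finset ℕ, H * X ^ (1 / (g : ℝ) - 1 / 2 - ε) ≤ (S.card : ℝ) ∧ ∀ D ∈ S,
        Squarefree D ∧ X ≤ D ∧ (D : ℝ) ≤ X + H ∧
          ∃ m n : ℕ, m.Prime ∧ m ≠ 2 ∧ m ^ g = D + n ^ 2 ∧ 16 * m ^ g < D ^ 2 := by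
  classical
  set η : ℝ := min ε 1 / 8 with hη
  have hmin0 : 0 < min ε 1 := lt_min hε one_pos
  have hη0 : 0 < η := by positivity
  have hη1 : 8 * η ≤ 1 := by
    have := min_le_right ε 1
    rw [hη]; linarith
  have hηε : 8 * η ≤ ε := by
    have := min_le_left ε 1
    rw [hη]; linarith
  obtain ⟨C0, hC0, hdiv⟩ := Pool.Agent.H510R2.divisor_bound (η / 2) (by positivity)
  set C : ℝ := max C0 1 with hC
  have hC1 : 1 ≤ C := le_max_right _ _
  obtain ⟨X0, hX01, hX0⟩ := large η (max 320 (40 * C)) hη0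
  have hl32 : 0 < Real.log 32 := Real.log_pos (by norm_num)
  set δ : ℝ := min (η / Real.log 32) (1 / 32) with hδ
  have hδ0 : 0 < δ := lt_min (by positivity) (by norm_num)
  refine ⟨δ, X0, hδ0, ?_⟩
  intro X H hX hH1 hHX g hg hgδ
  obtain ⟨hK, hlogu⟩ := hX0 X hX
  have hX1 : 1 < X := lt_of_lt_of_le hX01 hX
  have hXp : 0 < X := by linarith
  set u : ℝ := X ^ η with hu
  have hu320 : 320 ≤ u := (le_max_left _ _).trans hK
  have huC : 40 * C ≤ u := (le_max_right _ _).trans hK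
  have hu0 : 0 < u := by linarith
  have hu1 : 1 ≤ u := by linarith
  have hlogX : 0 < Real.log X := Real.log_pos hX1
  have hgr : (0 : ℝ) < g := by
    have : 0 < g := by omega
    exact_mod_cast this
  -- powers of u
  have hu8 : u ^ 8 ≤ X ^ ε := by
    rw [hu, ← Real.rpow_natCast, ← Real.rpow_mul hXp.le]
    apply Real.rpow_le_rpow_of_exponent_le hX1.le
    push_cast
    linarith
  have hu8X : u ^ 8 ≤ X := by
    calc u ^ 8 = X ^ (8 * η) := by
          rw [hu, ← Real.rpow_natCast, ← Real.rpow_mul hXp.le]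
          push_cast
          ring_nf
      _ ≤ X ^ (1 : ℝ) := Real.rpow_le_rpow_of_exponent_le hX1.le hη1
      _ = X := Real.rpow_one X
  have huX : 64 * u < X := by
    have h1 : u * 64 < u * u ^ 7 := by
      apply mul_lt_mul_of_pos_left _ hu0
      calc (64 : ℝ) < 320 ^ 7 := by norm_num
        _ ≤ u ^ 7 := pow_le_pow_left₀ (by norm_num) hu320 7
    calc 64 * u = u * 64 := by ring
      _ < u * u ^ 7 := h1
      _ = u ^ 8 := by ring
      _ ≤ X := hu8X
  have h32 : (32 : ℝ) ^ g ≤ u := by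
    have h1 : (g : ℝ) * Real.log 32 ≤ η * Real.log X := by
      have h2 : δ ≤ η / Real.log 32 := min_le_left _ _
      calc (g : ℝ) * Real.log 32 ≤ (δ * Real.log X) * Real.log 32 := by gcongr
        _ ≤ (η / Real.log 32 * Real.log X) * Real.log 32 := by gcongr
        _ = η * Real.log X := by field_simp
    rw [← Real.log_le_log_iff (by positivity) hu0, Real.log_pow, hu, Real.log_rpow hXp]
    exact h1
  -- the scale `n`
  set y : ℝ := (4 * X) ^ (1 / (g : ℝ)) with hy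
  have hyX : X ^ (1 / (g : ℝ)) ≤ y := Real.rpow_le_rpow hXp.le (by linarith) (by positivity)
  have hyg : y ^ g = 4 * X := by
    rw [hy, ← Real.rpow_natCast, ← Real.rpow_mul (by positivity)]
    rw [one_div, inv_mul_cancel₀ hgr.ne', Real.rpow_one]
  have hXg : (2 : ℝ) ^ 32 ≤ X ^ (1 / (g : ℝ)) := by
    have h1 : (g : ℝ) * 32 ≤ Real.log X := by
      have h2 : δ ≤ 1 / 32 := min_le_right _ _
      have h3 : (g : ℝ) ≤ 1 / 32 * Real.log X := hgδ.trans (by gcongr)
      linarith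
    have h2 : Real.log 2 ≤ 1 := by
      have := Real.log_two_lt_d9
      linarith
    rw [← Real.log_le_log_iff (by positivity) (by positivity), Real.log_pow, Real.log_rpow hXp]
    have h3 : 32 ≤ 1 / (g : ℝ) * Real.log X := by
      rw [one_div, inv_mul_eq_div, le_div_iff₀ hgr]
      linarith
    push_cast
    linarith
  have hy1 : 1 ≤ y := le_trans (by norm_num) (hXg.trans hyX)
  have hy0 : 0 < y := by linarith
  set n : ℕ := ⌈y⌉₊ with hn
  have hn1 : y ≤ n := Nat.le_ceil _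
  have hn2 : (n : ℝ) ≤ 2 * y := by
    have := Nat.ceil_lt_add_one hy0.le
    rw [← hn] at this
    linarith
  have hn32 : 2 ^ 32 ≤ n := by
    have h1 : (2 : ℝ) ^ 32 ≤ n := hXg.trans (hyX.trans hn1)
    exact_mod_cast h1
  have hnr : (2 : ℝ) ^ 32 ≤ n := by exact_mod_cast hn32
  have hyle : y ≤ 4 * X := by
    have : y ^ 1 ≤ y ^ g := pow_le_pow_right₀ hy1 (by omega)
    rw [hyg, pow_one] at this
    exact this
  have hlogn : Real.log n ≤ u := by
    have h1 : (n : ℝ) ≤ X ^ 2 := by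
      calc (n : ℝ) ≤ 2 * y := hn2
        _ ≤ 8 * X := by linarith
        _ ≤ X * X := by nlinarith
        _ = X ^ 2 := by ring
    have h2 := Real.log_le_log (by linarith) h1
    rw [Real.log_pow] at h2
    push_cast at h2
    linarith
  have hlogn0 : 0 < Real.log n := Real.log_pos (by linarith)
  set MM : Finset ℕ := (Ioc n (16 * n)).filter Nat.Prime with hMM
  have hMcard : X ^ (1 / (g : ℝ)) / u ≤ (MM.card : ℝ) := by
    refine le_trans ?_ (primes_count hn32)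
    calc X ^ (1 / (g : ℝ)) / u ≤ (n : ℝ) / u := by
          gcongr
          exact hyX.trans hn1
      _ ≤ n / Real.log n := by gcongr
  have hA : ∀ m ∈ MM, 4 * X < (m : ℝ) ^ g ∧ (m : ℝ) ^ g ≤ 4 * X * u := by
    intro m hm
    rw [hMM, mem_filter, mem_Ioc] at hm
    have h1 : (n : ℝ) < m := by exact_mod_cast hm.1.1
    have h2 : (m : ℝ) ≤ 16 * n := by exact_mod_cast hm.1.2
    constructor
    · calc 4 * X = y ^ g := hyg.symm
        _ < (m : ℝ) ^ g := pow_lt_pow_left₀ (by linarith) hy0.le (by omega)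
    · calc (m : ℝ) ^ g ≤ (32 * y) ^ g := pow_le_pow_left₀ (by linarith) (by linarith) g
        _ = 32 ^ g * (4 * X) := by rw [mul_pow, hyg]
        _ ≤ u * (4 * X) := by gcongr
        _ = 4 * X * u := by ring
  -- the rows
  set Q : ℝ := H / (16 * √X * u) with hQ
  have hsX : 0 < √X := Real.sqrt_pos.2 hXp
  have hHpos : 0 < H := lt_of_lt_of_le (Real.rpow_pos_of_pos hXp _) hH1
  set c3 : ℝ := X ^ (1 / 3 : ℝ) with hc3
  have hc31 : 1 ≤ c3 := Real.one_le_rpow hX1.le (by norm_num)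
  have hc33 : c3 ^ 3 = X := by
    rw [hc3, ← Real.rpow_natCast, ← Real.rpow_mul hXp.le]
    norm_num
  have hQlow : c3 * u ^ 6 ≤ Q := by
    rw [hQ, le_div_iff₀ (by positivity)]
    have h1 : c3 * √X = X ^ (5 / 6 : ℝ) := by
      rw [hc3, Real.sqrt_eq_rpow, ← Real.rpow_add hXp]
      norm_num
    calc c3 * u ^ 6 * (16 * √X * u) = (c3 * √X) * (16 * u ^ 7) := by ring
      _ = X ^ (5 / 6 : ℝ) * (16 * u ^ 7) := by rw [h1]
      _ ≤ X ^ (5 / 6 : ℝ) * (u * u ^ 7) := by gcongr; linarith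
      _ = X ^ (5 / 6 : ℝ) * u ^ 8 := by ring
      _ ≤ X ^ (5 / 6 : ℝ) * X ^ ε := by gcongr
      _ = X ^ (5 / 6 + ε) := by rw [← Real.rpow_add hXp]
      _ ≤ H := hH1
  have hu6 : (320 : ℝ) ^ 6 ≤ u ^ 6 := pow_le_pow_left₀ (by norm_num) hu320 6
  have hQ1 : (10 : ℝ) ^ 4 ≤ Q := by
    calc (10 : ℝ) ^ 4 ≤ 1 * 320 ^ 6 := by norm_num
      _ ≤ c3 * u ^ 6 := by gcongr
      _ ≤ Q := hQlow
  have hQ2 : 2 * 10 ^ 6 * X ≤ Q ^ 3 := by
    calc 2 * 10 ^ 6 * X ≤ (320 ^ 6) ^ 3 * X := by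
          apply mul_le_mul_of_nonneg_right (by norm_num) hXp.le
      _ = (1 * 320 ^ 6) ^ 3 * c3 ^ 3 := by rw [hc33, one_mul]
      _ ≤ (u ^ 6) ^ 3 * c3 ^ 3 := by
          rw [one_mul]
          gcongr
      _ = (c3 * u ^ 6) ^ 3 := by ring
      _ ≤ Q ^ 3 := pow_le_pow_left₀ (by positivity) hQlow 3
  have hrow : ∀ m : ℕ, ∃ S : Finset ℕ, m ∈ MM → Q / 10 ≤ (S.card : ℝ) ∧ ∀ D ∈ S,
      Squarefree D ∧ X ≤ D ∧ (D : ℝ) ≤ X + H ∧ ∃ n : ℕ, m ^ g = D + n ^ 2 := by
    intro m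
    by_cases hm : m ∈ MM
    · have hm' := hm
      rw [hMM, mem_filter, mem_Ioc] at hm'
      obtain ⟨hA1, hA2⟩ := hA m hm
      have hQA : Q ≤ H / (8 * √((m : ℝ) ^ g)) := by
        rw [hQ]
        have hpos : 0 < √((m : ℝ) ^ g) := Real.sqrt_pos.2 (by linarith)
        apply div_le_div_of_nonneg_left hHpos.le (by positivity)
        have h1 : √((m : ℝ) ^ g) ≤ 2 * √X * u := by
          rw [Real.sqrt_le_iff]
          refine ⟨by positivity, ?_⟩
          calc (m : ℝ) ^ g ≤ 4 * X * u := hA2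
            _ ≤ 4 * X * u ^ 2 := by
                gcongr
                nlinarith
            _ = (2 * √X * u) ^ 2 := by
                rw [mul_pow, mul_pow, Real.sq_sqrt hXp.le]
                ring
        linarith
      obtain ⟨S, hS⟩ := one_m (Q := Q) hm'.2 (by omega) (by omega) hXp hHpos hHX hA1 hQA hQ1 hQ2
      exact ⟨S, fun _ => hS⟩
    · exact ⟨∅, fun h => absurd h hm⟩
  choose S hS using hrow
  -- a subset of the primes
  set M' : ℕ := ⌈X ^ (1 / (g : ℝ)) / u⌉₊ with hM'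
  have hM'1 : X ^ (1 / (g : ℝ)) / u ≤ M' := Nat.le_ceil _
  have hXg0 : 0 < X ^ (1 / (g : ℝ)) := Real.rpow_pos_of_pos hXp _
  have hM'2 : (M' : ℝ) ≤ 2 * c3 := by
    have h1 := Nat.ceil_lt_add_one (a := X ^ (1 / (g : ℝ)) / u) (by positivity)
    have h2 : X ^ (1 / (g : ℝ)) ≤ c3 := by
      apply Real.rpow_le_rpow_of_exponent_le hX1.le
      have h3 : (3 : ℝ) ≤ g := by exact_mod_cast hg
      exact one_div_le_one_div_of_le (by norm_num) h3
    have h3 : X ^ (1 / (g : ℝ)) / u ≤ X ^ (1 / (g : ℝ)) := div_le_self hXg0.le hu1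
    rw [← hM'] at h1
    linarith
  have hM'3 : M' ≤ MM.card := Nat.ceil_le.2 hMcard
  obtain ⟨s, hsM, hscard⟩ := Finset.exists_subset_card_eq hM'3
  have hpair : ∀ m ∈ s, ∀ m' ∈ s, m ≠ m' → ((S m ∩ S m').card : ℝ) ≤ C * u := by
    have key : ∀ m ∈ s, ∀ m' ∈ s, m' < m → ((S m ∩ S m').card : ℝ) ≤ C * u := by
      intro m hm m' hm' hlt
      have h1 : m' ^ g < m ^ g := Nat.pow_lt_pow_left hlt (by omega)
      have h2 := inter_card h1 (fun D hD => ((hS m (hsM hm)).2 D hD).2.2.2)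
        (fun D hD => ((hS m' (hsM hm')).2 D hD).2.2.2)
      have h3 : 1 ≤ m ^ g - m' ^ g := by omega
      have h4 := hdiv (m ^ g - m' ^ g) h3
      have h5 : ((m ^ g - m' ^ g : ℕ) : ℝ) ≤ X ^ 2 := by
        have h6 : m ^ g - m' ^ g ≤ m ^ g := Nat.sub_le _ _
        calc ((m ^ g - m' ^ g : ℕ) : ℝ) ≤ ((m ^ g : ℕ) : ℝ) := by exact_mod_cast h6
          _ = (m : ℝ) ^ g := by push_cast; rfl
          _ ≤ 4 * X * u := (hA m (hsM hm)).2
          _ ≤ X ^ 2 := by nlinarith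
      have h6 : (((m ^ g - m' ^ g : ℕ) : ℝ)) ^ (η / 2) ≤ u := by
        calc (((m ^ g - m' ^ g : ℕ) : ℝ)) ^ (η / 2) ≤ (X ^ 2) ^ (η / 2) :=
              Real.rpow_le_rpow (by positivity) h5 (by positivity)
          _ = u := by
              rw [hu, ← Real.rpow_natCast, ← Real.rpow_mul hXp.le]
              congr 1
              push_cast
              ring
      calc ((S m ∩ S m').card : ℝ) ≤ ((m ^ g - m' ^ g).divisors.card : ℝ) := by exact_mod_cast h2
        _ ≤ C0 * (((m ^ g - m' ^ g : ℕ) : ℝ)) ^ (η / 2) := h4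
        _ ≤ C * u := by
            gcongr
            exact le_max_left _ _
    intro m hm m' hm' hne
    rcases lt_or_gt_of_ne hne with h | h
    · rw [inter_comm]
      exact key m' hm' m hm h
    · exact key m hm m' hm' h
  have hunion := union_lower (S := S) (T := Q / 10) (I := C * u) (by positivity) s
    (fun m hm => (hS m (hsM hm)).1) hpair
  rw [hscard] at hunion
  refine ⟨s.biUnion S, ?_, ?_⟩
  · refine le_trans ?_ hunion
    have h1 : (M' : ℝ) * (C * u) ≤ Q / 20 := by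
      have h2 : 2 * c3 * (C * u) ≤ Q / 20 := by
        have h3 : c3 * (40 * C) * u ≤ c3 * u * u := by gcongr
        have h4 : c3 * u * u ≤ c3 * u ^ 6 := by
          have : u ^ 2 ≤ u ^ 6 := pow_le_pow_right₀ hu1 (by norm_num)
          calc c3 * u * u = c3 * u ^ 2 := by ring
            _ ≤ c3 * u ^ 6 := by gcongr
        linarith
      calc (M' : ℝ) * (C * u) ≤ 2 * c3 * (C * u) := by gcongr
        _ ≤ Q / 20 := h2
    have h2 : Q / 20 ≤ Q / 10 - M' * (C * u) := by linarith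
    have hQ0 : 0 < Q := by positivity
    calc H * X ^ (1 / (g : ℝ) - 1 / 2 - ε)
        = H * (X ^ (1 / (g : ℝ)) / √X / X ^ ε) := by
          rw [Real.sqrt_eq_rpow, ← Real.rpow_sub hXp, ← Real.rpow_sub hXp]
      _ ≤ H * (X ^ (1 / (g : ℝ)) / √X / u ^ 3) := by
          have h5 : u ^ 3 ≤ X ^ ε := (pow_le_pow_right₀ hu1 (by norm_num)).trans hu8
          gcongr
      _ ≤ H * (X ^ (1 / (g : ℝ)) / √X / (320 * u ^ 2)) := by
          have h5 : 320 * u ^ 2 ≤ u ^ 3 := by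
            calc 320 * u ^ 2 ≤ u * u ^ 2 := by gcongr
              _ = u ^ 3 := by ring
          gcongr
      _ = X ^ (1 / (g : ℝ)) / u * (Q / 20) := by
          rw [hQ]
          field_simp
          ring
      _ ≤ M' * (Q / 20) := by gcongr
      _ ≤ M' * (Q / 10 - M' * (C * u)) := by gcongr
  · intro D hD
    rw [mem_biUnion] at hD
    obtain ⟨m, hm, hD⟩ := hD
    obtain ⟨h1, h2, h3, n', h4⟩ := (hS m (hsM hm)).2 D hD
    have hm' := hsM hm
    have hAm := (hA m hm').2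
    rw [hMM, mem_filter, mem_Ioc] at hm'
    refine ⟨h1, h2, h3, m, n', hm'.2, by omega, h4, ?_⟩
    have h5 : (((16 * m ^ g : ℕ) : ℝ)) < ((D ^ 2 : ℕ) : ℝ) := by
      push_cast
      calc 16 * (m : ℝ) ^ g ≤ 16 * (4 * X * u) := by gcongr
        _ = (64 * u) * X := by ring
        _ < X * X := by gcongr
        _ = X ^ 2 := by ring
        _ ≤ (D : ℝ) ^ 2 := by gcongr
    exact_mod_cast h5

end Pool.Agent.TH861.CG
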