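import Mathlib
import Pool.Agent.H419R2.A1
import Pool.Agent.H845.Voj.Disc

set_option autoImplicit false

/-!
# Elements of order `g` in class groups of imaginary quadratic fields
-/

namespace Pool.Agent.TH861.CG

open NumberField Module

variable {K : Type} [Field K] [NumberField K]

theorem not_sq {D : ℕ} (hD : 0 < D) : ¬ ∃ q : ℚ, q ^ 2 = ((-(D : ℤ) : ℤ) : ℚ) := by
  rintro ⟨q, hq⟩
  have h1 : (0 : ℚ) ≤ q ^ 2 := sq_nonneg q
  rw [hq] at h1
  push_cast at h1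
  have h2 : (0 : ℚ) < D := by exact_mod_cast hD
  linarith

theorem not_isSquare {D : ℕ} (hD : 0 < D) : ¬ IsSquare (-(D : ℤ)) := by
  rintro ⟨c, hc⟩
  have h1 := mul_self_nonneg c
  have h2 : (0 : ℤ) < D := by exact_mod_cast hD
  omega

theorem cast_neg {D : ℕ} {r : K} (hr : r ^ 2 = -(D : K)) : r ^ 2 = ((-(D : ℤ) : ℤ) : K) := by
  push_cast
  exact hr

theorem norm_eq {D : ℕ} (hD : 0 < D) (h2 : finrank ℚ K = 2) {r : K} (hr : r ^ 2 = -(D : K))
    (κ : 𝓞 K) (p q : ℚ) (h : (κ : K) = (p : K) + (q : K) * r) :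
    (Algebra.norm ℤ κ : ℚ) = p ^ 2 + D * q ^ 2 := by
  obtain ⟨b, hb0, hb1⟩ := Pool.Agent.H845.Voj.exists_basis (not_isSquare hD) h2 r (cast_neg hr)
  rw [Algebra.coe_norm_int, h, Algebra.norm_eq_matrix_det b,
    Pool.Agent.H845.Voj.mat (cast_neg hr) b hb0 hb1, Matrix.det_fin_two]
  simp
  ring

/-- integral elements have the form `(a + b r) / 2` -/
theorem half_form {D : ℕ} (hD : 0 < D) (hsf : Squarefree D) (h2 : finrank ℚ K = 2) {r : K}
    (hr : r ^ 2 = -(D : K)) (κ : 𝓞 K) :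
    ∃ a b : ℤ, 2 * (κ : K) = a + b * r ∧ 4 * Algebra.norm ℤ κ = a ^ 2 + D * b ^ 2 := by
  obtain ⟨p, q, hpq⟩ := H419R2.exists_coords (not_sq hD) h2 (cast_neg hr) (κ : K)
  have hN := norm_eq hD h2 hr κ p q hpq
  have hint : IsIntegral ℤ (κ : K) := RingOfIntegers.isIntegral_coe κ
  have key : ∃ a b : ℤ, (a : ℚ) = 2 * p ∧ (b : ℚ) = 2 * q := by
    by_cases hq : q = 0
    · rw [hpq, hq] at hint
      have h3 : IsIntegral ℤ (algebraMap ℚ K p) := by
        simpa using hint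
      have h4 : IsIntegral ℤ p := (isIntegral_algebraMap_iff (algebraMap ℚ K).injective).1 h3
      obtain ⟨c, hc⟩ := IsIntegrallyClosed.isIntegral_iff.mp h4
      refine ⟨2 * c, 0, ?_, ?_⟩
      · rw [← hc]; simp
      · rw [hq]; simp
    · rw [hpq] at hint
      obtain ⟨⟨a, ha⟩, _⟩ := H419R2.two_int_of_integral (not_sq hD) (cast_neg hr) hq hint
      have h5 : Squarefree (D : ℤ) := Int.squarefree_natCast.2 hsf
      obtain ⟨b, hb⟩ := H419R2.int_of_squarefree_mul_sq (D := (D : ℤ)) (z := 2 * q)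
        (k := 4 * Algebra.norm ℤ κ - a ^ 2) h5 (by
          push_cast
          rw [hN, ha]
          ring)
      exact ⟨a, b, ha, hb⟩
  obtain ⟨a, b, ha, hb⟩ := key
  refine ⟨a, b, ?_, ?_⟩
  · have h6 : ((a : ℚ) : K) = 2 * (p : K) := by rw [ha]; push_cast; ring
    have h7 : ((b : ℚ) : K) = 2 * (q : K) := by rw [hb]; push_cast; ring
    have h6' : (a : K) = 2 * (p : K) := by rw [← h6]; push_cast; rfl
    have h7' : (b : K) = 2 * (q : K) := by rw [← h7]; push_cast; rfl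
    rw [hpq, h6', h7']
    ring
  · have h8 : ((4 * Algebra.norm ℤ κ : ℤ) : ℚ) = ((a ^ 2 + D * b ^ 2 : ℤ) : ℚ) := by
      push_cast
      rw [hN, ha, hb]
      ring
    exact_mod_cast h8

theorem coords_unique {D : ℕ} (hD : 0 < D) {r : K} (hr : r ^ 2 = -(D : K)) (u v : ℤ)
    (h : (u : K) + v * r = 0) : v = 0 := by
  by_contra hv
  apply not_sq hD
  refine ⟨-u / v, ?_⟩
  have hv' : (v : K) ≠ 0 := by exact_mod_cast hv
  have h1 : r = ((-u / v : ℚ) : K) := by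
    push_cast
    rw [eq_div_iff hv']
    linear_combination h
  have h2 := cast_neg hr
  rw [h1] at h2
  exact_mod_cast h2

theorem exists_order {D m n g : ℕ} (hsf : Squarefree D) (hm : m.Prime) (hm2 : m ≠ 2) (hg : 2 ≤ g)
    (h : m ^ g = D + n ^ 2) (hs : 16 * m ^ g < D ^ 2) (h2 : finrank ℚ K = 2) (r : K)
    (hr : r ^ 2 = -(D : K)) : ∃ c : ClassGroup (𝓞 K), orderOf c = g := by
  have hD : 0 < D := Nat.pos_of_ne_zero hsf.ne_zero
  have hri : IsIntegral ℤ r := by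
    refine ⟨Polynomial.X ^ 2 + Polynomial.C (D : ℤ), Polynomial.monic_X_pow_add_C _ (by norm_num), ?_⟩
    rw [← Polynomial.aeval_def]
    simp [hr]
  obtain ⟨ρ, hρr⟩ : ∃ ρ : 𝓞 K, (ρ : K) = r := ⟨⟨r, hri⟩, rfl⟩
  have hρr' : algebraMap (𝓞 K) K ρ = r := hρr
  have hρ : ρ ^ 2 = -(D : 𝓞 K) := by
    apply FaithfulSMul.algebraMap_injective (𝓞 K) K
    rw [map_pow, map_neg, map_natCast, hρr', hr]
  have hmn : ¬ m ∣ n := by
    intro hd
    have h3 : m * m ∣ n ^ 2 := by rw [sq]; exact mul_dvd_mul hd hd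
    have h4 : m * m ∣ m ^ g := by rw [← sq]; exact pow_dvd_pow m hg
    have h5 : m * m ∣ D := by
      rw [h] at h4
      exact (Nat.dvd_add_left h3).1 h4
    exact hm.one_lt.ne' (Nat.isUnit_iff.1 (hsf m h5))
  have hcop : Nat.Coprime (2 * n) (m ^ g) := by
    apply Nat.Coprime.pow_right
    rw [Nat.coprime_comm, hm.coprime_iff_not_dvd]
    intro hd
    rcases hm.dvd_mul.1 hd with h3 | h3
    · exact hm2 ((Nat.prime_dvd_prime_iff_eq hm Nat.prime_two).1 h3)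
    · exact hmn h3
  set α : 𝓞 K := (n : 𝓞 K) + ρ with hα
  set β : 𝓞 K := (n : 𝓞 K) - ρ with hβ
  have hαβ : α * β = ((m ^ g : ℕ) : 𝓞 K) := by
    rw [hα, hβ, h]
    push_cast
    linear_combination -hρ
  have hcopαβ : IsCoprime α β := by
    have h3 : IsCoprime ((2 * n : ℕ) : ℤ) ((m ^ g : ℕ) : ℤ) := Nat.isCoprime_iff_coprime.2 hcop
    obtain ⟨s, t, hst⟩ := h3
    refine ⟨s + t * β, s, ?_⟩
    have h4 : ((s * ((2 * n : ℕ) : ℤ) + t * ((m ^ g : ℕ) : ℤ) : ℤ) : 𝓞 K) = ((1 : ℤ) : 𝓞 K) := by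
      rw [hst]
    push_cast at h4 hαβ
    have h5 : α + β = 2 * (n : 𝓞 K) := by rw [hα, hβ]; ring
    linear_combination h4 + (s : 𝓞 K) * h5 + (t : 𝓞 K) * hαβ
  have hmul : Ideal.span {α} * Ideal.span {β} = (Ideal.span {((m : ℕ) : 𝓞 K)}) ^ g := by
    rw [Ideal.span_singleton_mul_span_singleton, hαβ, Ideal.span_singleton_pow]
    push_cast
    rfl
  obtain ⟨I, hI⟩ := exists_eq_pow_of_mul_eq_pow_of_coprime
    ((Ideal.isCoprime_span_singleton_iff α β).2 hcopαβ) hmul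
  have hmg : m ^ g ≠ 0 := (pow_pos hm.pos g).ne'
  have hα0 : α ≠ 0 := by
    intro h0
    rw [h0, zero_mul] at hαβ
    exact hmg (by exact_mod_cast hαβ.symm)
  have hI0 : I ≠ ⊥ := by
    intro h0
    rw [h0, ← Ideal.zero_eq_bot, zero_pow (by omega), Ideal.zero_eq_bot,
      Ideal.span_singleton_eq_bot] at hI
    exact hα0 hI
  have hNα : Algebra.norm ℤ α = ((m ^ g : ℕ) : ℤ) := by
    have h3 := norm_eq hD h2 hr α n 1 (by
      change algebraMap (𝓞 K) K α = _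
      rw [hα, map_add, map_natCast, hρr']
      push_cast
      ring)
    have h4 : (Algebra.norm ℤ α : ℚ) = ((m ^ g : ℕ) : ℚ) := by
      rw [h3, h]
      push_cast
      ring
    exact_mod_cast h4
  have hNI : Ideal.absNorm I = m := by
    have h3 : Ideal.absNorm (Ideal.span {α}) = m ^ g := by
      rw [Ideal.absNorm_span_singleton, hNα]
      simp
    rw [hI, map_pow] at h3
    exact Nat.pow_left_injective (by omega : g ≠ 0) h3
  set J : nonZeroDivisors (Ideal (𝓞 K)) := ⟨I, mem_nonZeroDivisors_of_ne_zero hI0⟩ with hJ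
  set c := ClassGroup.mk0 J with hc
  have hpow : ∀ k : ℕ, c ^ k = 1 ↔ (I ^ k).IsPrincipal := by
    intro k
    rw [hc, ← map_pow, ClassGroup.mk0_eq_one_iff]
    rfl
  have hcg : c ^ g = 1 := by
    rw [hpow, ← hI]
    exact ⟨α, rfl⟩
  refine ⟨c, ?_⟩
  have ho := orderOf_dvd_of_pow_eq_one hcg
  by_contra hne
  have ho0 : 0 < orderOf c := Nat.pos_of_ne_zero (fun h0 => by rw [h0, zero_dvd_iff] at ho; omega)
  obtain ⟨t, ht⟩ := ho
  have ht2 : 2 ≤ t := by
    by_contra hlt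
    have ht01 : t = 0 ∨ t = 1 := by omega
    rcases ht01 with h0 | h0
    · rw [h0] at ht; omega
    · rw [h0, mul_one] at ht; exact hne ht.symm
  set o := orderOf c with hodef
  have hco : c ^ o = 1 := pow_orderOf_eq_one c
  rw [hpow] at hco
  obtain ⟨γ, hγ⟩ := hco
  have hγ' : I ^ o = Ideal.span {γ} := hγ
  have hNγ : (Algebra.norm ℤ γ).natAbs = m ^ o := by
    rw [← Ideal.absNorm_span_singleton, ← hγ', map_pow, hNI]
  obtain ⟨a, b, hab1, hab2⟩ := half_form hD hsf h2 hr γ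
  have hNpos : 0 ≤ Algebra.norm ℤ γ := by
    have h3 : 0 ≤ a ^ 2 + (D : ℤ) * b ^ 2 := by positivity
    omega
  have hNγ' : Algebra.norm ℤ γ = ((m ^ o : ℕ) : ℤ) := by
    rw [← hNγ]
    exact (Int.natAbs_of_nonneg hNpos).symm
  have hb : b = 0 := by
    by_contra hb0
    have h3 : (1 : ℤ) ≤ b ^ 2 := by
      have : 0 < b ^ 2 := by positivity
      omega
    have h4 : (D : ℤ) ≤ 4 * ((m ^ o : ℕ) : ℤ) := by
      rw [← hNγ', hab2]
      nlinarith [sq_nonneg a, (by positivity : (0 : ℤ) ≤ (D : ℤ))]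
    have h5 : D ≤ 4 * m ^ o := by exact_mod_cast h4
    have h6 : m ^ (o * 2) ≤ m ^ g := by
      rw [ht]
      exact Nat.pow_le_pow_right hm.pos (Nat.mul_le_mul_left o ht2)
    have h7 : D ^ 2 ≤ 16 * m ^ g := by
      calc D ^ 2 ≤ (4 * m ^ o) ^ 2 := Nat.pow_le_pow_left h5 2
        _ = 16 * m ^ (o * 2) := by rw [mul_pow, ← pow_mul]; norm_num
        _ ≤ 16 * m ^ g := Nat.mul_le_mul_left 16 h6
    omega
  rw [hb, hNγ'] at hab2
  rw [hb] at hab1
  have ha2 : (2 : ℤ) ∣ a := by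
    have h3 : (2 : ℤ) ∣ a ^ 2 := ⟨2 * ((m ^ o : ℕ) : ℤ), by linear_combination -hab2⟩
    exact Int.prime_two.dvd_of_dvd_pow h3
  obtain ⟨a', ha'⟩ := ha2
  have ham : a' ^ 2 = ((m ^ o : ℕ) : ℤ) := by
    rw [ha'] at hab2
    linarith
  have hma : (m : ℤ) ∣ a' := by
    have h3 : (m : ℤ) ∣ a' ^ 2 := by
      rw [ham]
      push_cast
      exact dvd_pow_self _ ho0.ne'
    exact (Nat.prime_iff_prime_int.1 hm).dvd_of_dvd_pow h3
  have hγa : γ = (a' : 𝓞 K) := by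
    apply RingOfIntegers.coe_injective
    push_cast
    rw [ha'] at hab1
    push_cast at hab1
    have h3 : (2 : K) * (γ : K) = 2 * (a' : K) := by rw [hab1]; ring
    exact mul_left_cancel₀ two_ne_zero h3
  have hαI : α ∈ I ^ o := by
    have h3 : α ∈ I ^ g := by rw [← hI]; exact Ideal.mem_span_singleton_self α
    exact Ideal.pow_le_pow_right (by rw [ht]; exact Nat.le_mul_of_pos_right o (by omega)) h3
  rw [hγ', Ideal.mem_span_singleton, hγa] at hαI
  have hmα : ((m : ℕ) : 𝓞 K) ∣ α := by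
    refine dvd_trans ?_ hαI
    obtain ⟨w, hw⟩ := hma
    exact ⟨(w : 𝓞 K), by rw [hw]; push_cast; ring⟩
  obtain ⟨δ, hδ⟩ := hmα
  obtain ⟨a1, b1, hab3, _⟩ := half_form hD hsf h2 hr δ
  have h8 : ((m * a1 - 2 * n : ℤ) : K) + ((m * b1 - 2 : ℤ) : K) * r = 0 := by
    have h9 : (α : K) = (m : K) * (δ : K) := by
      rw [hδ]
      push_cast
      rfl
    have h10 : (α : K) = (n : K) + r := by
      change algebraMap (𝓞 K) K α = _
      rw [hα, map_add, map_natCast, hρr']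
    push_cast
    linear_combination -(m : K) * hab3 - 2 * h9 + 2 * h10
  have h11 := coords_unique hD hr _ _ h8
  have h12 : (m : ℤ) ∣ 2 := ⟨b1, by linarith⟩
  have h13 : m ∣ 2 := by exact_mod_cast h12
  exact hm2 ((Nat.prime_dvd_prime_iff_eq hm Nat.prime_two).1 h13)

end Pool.Agent.TH861.CG
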